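import Pool.Agent.helper84.LP.SpecG

/-!
# MP_07c750, project LP, row `lp:UPA`: the uniform part

`UPA_core` is the version whose only input on the measure is the inequality `μ E + μ (Low a) ≤ 1` for all sets `E` with `CO E h`, `h < 1`.
-/

open scoped MatrixGroups ContDiff Topology UpperHalfPlane ComplexConjugate
open UpperHalfPlane MeasureTheory Filter Set

set_option autoImplicit false

namespace Pool.Agent.LP

open Pool.Agent.RS
open Pool.Agent.MS (bq BB BA SF pf)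
open Pool.Agent.HV (FW)
open Pool.Agent.EN (XG MG mkX mkM fl pr)
open Pool.Agent.ER (Low LowJ)

noncomputable section

/-- the set of the points with a small time average is covered by few boxes -/
theorem UPA_co (hLDB : LDB_stmt) (hXFL : EN.XFL_stmt) (Γ : Subgroup SL(2, ℝ)) (F : Set ℍ) (μ : Measure (XG Γ)) (V : MG Γ → ℝ)
    (hΓ : QU.SurfaceGroup Γ) (hF : QU.NiceDom Γ F) (hμ : IsProbabilityMeasure μ) (hV : Continuous V) (f : XG Γ → ℝ)
    (hfi : ∀ n : ℕ, ∀ᵐ x ∂μ, f (fl Γ n x) = f x)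
    (hfc : ∀ ε δ : ℝ, 0 < ε → 0 < δ → ∃ n0 : ℕ, ∀ n : ℕ, n0 ≤ n → μ.real {x | ε * n ≤ |(∫ t in (0 : ℝ)..n, V (pr Γ (fl Γ t x))) - f x * n|} ≤ δ)
    (ε : ℝ) (hε : 0 < ε) :
    ∃ c : ℝ, 0 < c ∧ c ≤ 1 ∧ CO Γ μ {x | f x < (∫ z in F, V (mkM Γ z)) / (volume F).toReal - ε} (1 - c) := by
  obtain ⟨-, -, -, -, hXs, hMc, -, -, hfl, hpr, -, hMe⟩ := hXFL Γ
  set M : ℝ := (∫ z in F, V (mkM Γ z)) / (volume F).toReal with hM
  have hInv : QU.Inv Γ (fun z => V (mkM Γ z)) := by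
    refine ⟨hV.comp hMc, ?_⟩
    intro γ z
    have h1 : mkM Γ z = mkM Γ (γ • z) := (hMe z (γ • z)).2 ⟨γ, rfl⟩
    show V (mkM Γ (γ • z)) = V (mkM Γ z)
    rw [← h1]
  obtain ⟨c, hc0, hc1, hLD⟩ := hLDB Γ F (fun z => V (mkM Γ z)) (ε / 2) hΓ hF hInv (by linarith)
  refine ⟨c, hc0, hc1, ?_, ?_⟩
  · intro n
    have h0 : μ {x | ¬ (f (fl Γ n x) = f x)} = 0 := by
      have h1 := hfi n
      exact (MeasureTheory.ae_iff).1 h1
    have h2 : μ ({x | f x < M - ε} \ (fl Γ n) ⁻¹' {x | f x < M - ε}) = 0 := by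
      refine measure_mono_null ?_ h0
      intro x hx
      obtain ⟨hx1, hx2⟩ := hx
      show ¬ (f (fl Γ n x) = f x)
      intro h3
      apply hx2
      show f (fl Γ n x) < M - ε
      rw [h3]
      exact hx1
    show (μ ({x | f x < M - ε} \ (fl Γ n) ⁻¹' {x | f x < M - ε})).toReal = 0
    rw [h2]
    rfl
  · intro a η δ ha hη hδ
    obtain ⟨n0, hn0⟩ := hLD a ha
    obtain ⟨n1, hn1⟩ := hfc (ε / 2) δ (by linarith) hδ
    refine ⟨max n0 n1, ?_⟩
    intro n hn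
    obtain ⟨A, hA1, hA2⟩ := hn0 n (le_trans (le_max_left _ _) hn)
    refine ⟨A, ?_, ?_⟩
    · refine hA1.trans ?_
      apply Real.exp_le_exp.2
      have hn' : (0 : ℝ) ≤ (n : ℝ) := Nat.cast_nonneg n
      nlinarith
    · refine le_trans ?_ (hn1 n (le_trans (le_max_right _ _) hn))
      refine measureReal_mono ?_ (measure_ne_top μ _)
      intro x hx
      obtain ⟨hx1, hx2⟩ := hx
      obtain ⟨g, rfl⟩ := hXs x
      have hx1' : f (mkX Γ g) < M - ε := hx1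
      show ε / 2 * (n : ℝ) ≤ |(∫ t in (0 : ℝ)..n, V (pr Γ (fl Γ t (mkX Γ g)))) - f (mkX Γ g) * n|
      have hI : (∫ t in (0 : ℝ)..n, V (mkM Γ ((g * aM t) • I))) = ∫ t in (0 : ℝ)..n, V (pr Γ (fl Γ t (mkX Γ g))) := by
        refine intervalIntegral.integral_congr ?_
        intro t _
        show V (mkM Γ ((g * aM t) • I)) = V (pr Γ (fl Γ t (mkX Γ g)))
        rw [hfl t g, hpr]
      have h4 : ¬ (∫ t in (0 : ℝ)..n, V (mkM Γ ((g * aM t) • I))) ≤ (M - ε / 2) * n := by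
        intro h5
        exact hx2 (hA2 g h5)
      rw [hI] at h4
      have h6 := not_le.1 h4
      have hn' : (0 : ℝ) ≤ (n : ℝ) := Nat.cast_nonneg n
      have h7 : f (mkX Γ g) * n ≤ (M - ε) * n := mul_le_mul_of_nonneg_right hx1'.le hn'
      refine le_trans ?_ (le_abs_self _)
      nlinarith

/-- the uniform part from the inequality `μ E + μ (Low a) ≤ 1` -/
theorem UPA_core (hLDB : LDB_stmt) (hMEV : MEV_stmt) (hXFL : EN.XFL_stmt) (Γ : Subgroup SL(2, ℝ)) (F : Set ℍ) (μ : Measure (XG Γ)) (a : ℝ) (V : MG Γ → ℝ)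
    (hΓ : QU.SurfaceGroup Γ) (hF : QU.NiceDom Γ F) (hμ : IsProbabilityMeasure μ) (hinv : ∀ t, μ.map (fl Γ t) = μ)
    (hL : ∀ (h : ℝ) (E : Set (XG Γ)), 0 ≤ h → h < 1 → CO Γ μ E h → μ.real E + μ.real (Low Γ μ a) ≤ 1)
    (hV : Continuous V) (hV01 : ∀ y, 0 ≤ V y ∧ V y ≤ 1) :
    μ.real (Low Γ μ a) * ((∫ z in F, V (mkM Γ z)) / (volume F).toReal) ≤ ∫ x, V (pr Γ x) ∂μ := by
  obtain ⟨f, hfm, hf01, hfi, hfI, hfc⟩ := hMEV Γ μ V hΓ hμ hinv hV hV01
  set M : ℝ := (∫ z in F, V (mkM Γ z)) / (volume F).toReal with hM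
  rw [← hfI]
  have hL0 : 0 ≤ μ.real (Low Γ μ a) := measureReal_nonneg
  have hL1 : μ.real (Low Γ μ a) ≤ 1 := measureReal_le_one
  have hI0 : 0 ≤ ∫ x, f x ∂μ := integral_nonneg (fun x => (hf01 x).1)
  have hfint : Integrable f μ := by
    refine Integrable.of_bound hfm.aestronglyMeasurable 1 ?_
    refine Filter.Eventually.of_forall ?_
    intro x
    rw [Real.norm_eq_abs, abs_of_nonneg (hf01 x).1]
    exact (hf01 x).2
  refine le_of_forall_pos_le_add ?_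
  intro ε hε
  rcases le_or_gt M ε with hMe | hMe
  · have h1 : μ.real (Low Γ μ a) * M ≤ ε := by
      rcases le_or_gt M 0 with h0 | h0
      · have h2 : μ.real (Low Γ μ a) * M ≤ 0 := mul_nonpos_of_nonneg_of_nonpos hL0 h0
        linarith
      · nlinarith
    linarith
  · obtain ⟨c, hc0, hc1, hCO⟩ := UPA_co hLDB hXFL Γ F μ V hΓ hF hμ hV f hfi hfc ε hε
    have h1 := hL (1 - c) _ (by linarith) (by linarith) hCO
    set E : Set (XG Γ) := {x | f x < M - ε} with hE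
    have hEm : MeasurableSet E := measurableSet_lt hfm measurable_const
    have h2 : μ.real Eᶜ = 1 - μ.real E := probReal_compl_eq_one_sub hEm
    have h3 : (M - ε) * μ.real Eᶜ ≤ ∫ x, f x ∂μ := by
      have h4 : ∫ x in Eᶜ, (M - ε) ∂μ ≤ ∫ x in Eᶜ, f x ∂μ := by
        refine setIntegral_mono_on (integrable_const _).integrableOn hfint.integrableOn hEm.compl ?_
        intro x hx
        have hx' : ¬ (f x < M - ε) := hx
        exact not_lt.1 hx'
      have h5 : ∫ x in Eᶜ, f x ∂μ ≤ ∫ x, f x ∂μ :=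
        setIntegral_le_integral hfint (Filter.Eventually.of_forall (fun x => (hf01 x).1))
      rw [setIntegral_const, smul_eq_mul] at h4
      linarith
    have h6 : μ.real (Low Γ μ a) ≤ μ.real Eᶜ := by linarith
    have h7 : (M - ε) * μ.real (Low Γ μ a) ≤ (M - ε) * μ.real Eᶜ := mul_le_mul_of_nonneg_left h6 (by linarith)
    nlinarith

theorem UPA_proof (hLPM : LPM_stmt) (hLDB : LDB_stmt) (hMEV : MEV_stmt) (hXFL : EN.XFL_stmt) : UPA_stmt := by
  intro Γ F μ K a V hΓ hF hμ hinv hK hGP ha0 ha1 hV hV01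
  refine UPA_core hLDB hMEV hXFL Γ F μ a V hΓ hF hμ hinv ?_ hV hV01
  intro h E h0 h1 hCO
  refine hLPM Γ μ K a h E hΓ hμ hinv hK hGP ha0 (by linarith) h0 h1 ?_ hCO
  nlinarith

end

end Pool.Agent.LP
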